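import Pool.Agent.Work.MP_a2bf38_gt.X.Hadamard

/-!
# The oscillation of entire functions of logarithmic growth

A continuous bounded function on `ℂ` which is subharmonic up to `A log (1 + |s|²)`, outside of a
discrete set, and which is almost constant on a disc of radius `r'`, is bounded by its value there plus
`2 A log (1 / r')`.
-/

open scoped ContDiff ENNReal ComplexOrder Topology
open Set MeasureTheory Filter Pool.Agent.ToricKRF Pool.Agent.ToricKRF.G Pool.Agent.KRFS
  Pool.Agent.KRFF Pool.Agent.KRFG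

namespace Pool.Agent.KRFHk

theorem cavg_add {F G : ℂ → ℝ} {ρ : ℝ}
    (hF : Continuous fun θ : ℝ => F ((ρ : ℂ) * Complex.exp (θ * Complex.I)))
    (hG : Continuous fun θ : ℝ => G ((ρ : ℂ) * Complex.exp (θ * Complex.I))) :
    cavg (fun ζ => F ζ + G ζ) ρ = cavg F ρ + cavg G ρ := by
  unfold cavg
  rw [intervalIntegral.integral_add (hF.intervalIntegrable _ _) (hG.intervalIntegrable _ _), mul_add]

theorem cavg_mul_left (c : ℝ) (F : ℂ → ℝ) (ρ : ℝ) :
    cavg (fun ζ => c * F ζ) ρ = c * cavg F ρ := by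
  unfold cavg
  rw [intervalIntegral.integral_const_mul]
  ring

theorem cavg_const' (c : ℝ) (ρ : ℝ) : cavg (fun _ => c) ρ = c := by
  unfold cavg
  rw [intervalIntegral.integral_const, sub_zero, smul_eq_mul, ← mul_assoc,
    inv_mul_cancel₀ Real.two_pi_pos.ne', one_mul]

theorem cavg_mono' {F G : ℂ → ℝ} {ρ : ℝ}
    (hF : Continuous fun θ : ℝ => F ((ρ : ℂ) * Complex.exp (θ * Complex.I)))
    (hG : Continuous fun θ : ℝ => G ((ρ : ℂ) * Complex.exp (θ * Complex.I)))
    (h : ∀ θ : ℝ, F ((ρ : ℂ) * Complex.exp (θ * Complex.I)) ≤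
      G ((ρ : ℂ) * Complex.exp (θ * Complex.I))) : cavg F ρ ≤ cavg G ρ := by
  unfold cavg
  refine mul_le_mul_of_nonneg_left ?_ (inv_nonneg.2 Real.two_pi_pos.le)
  exact intervalIntegral.integral_mono_on Real.two_pi_pos.le (hF.intervalIntegrable _ _)
    (hG.intervalIntegrable _ _) fun θ _ => h θ

theorem cavg_sum {ι : Type*} (T : Finset ι) {F : ι → ℂ → ℝ} {ρ : ℝ}
    (hF : ∀ i ∈ T, Continuous fun θ : ℝ => F i ((ρ : ℂ) * Complex.exp (θ * Complex.I))) :
    cavg (fun ζ => ∑ i ∈ T, F i ζ) ρ = ∑ i ∈ T, cavg (F i) ρ := by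
  unfold cavg
  rw [intervalIntegral.integral_finsetSum fun i hi => (hF i hi).intervalIntegrable _ _,
    Finset.mul_sum]

theorem norm_circle {ρ : ℝ} (hρ : 0 ≤ ρ) (θ : ℝ) :
    ‖(ρ : ℂ) * Complex.exp (θ * Complex.I)‖ = ρ := by
  rw [norm_mul, Complex.norm_exp_ofReal_mul_I, mul_one, Complex.norm_real, Real.norm_of_nonneg hρ]

/-- the mean value property of `log (|ζ - e| / b)` -/
theorem cavg_log_div {a e : ℂ} {ρ b : ℝ} (hρ : 0 < ρ) (h : ρ < ‖a - e‖) (hb : 0 < b) :
    cavg (fun ξ => Real.log (‖a + ξ - e‖ / b)) ρ = Real.log (‖a - e‖ / b) := by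
  have h0 : 0 < ‖a - e‖ := hρ.trans h
  have hne : ∀ θ : ℝ, ‖a - e + (ρ : ℂ) * Complex.exp (θ * Complex.I)‖ ≠ 0 := fun θ h1 => by
    have h2 := norm_sub_norm_le (a - e) (-((ρ : ℂ) * Complex.exp (θ * Complex.I)))
    rw [norm_neg, sub_neg_eq_add, h1, norm_circle hρ.le] at h2
    linarith
  have h3 : cavg (fun ξ => Real.log (‖a + ξ - e‖ / b)) ρ =
      cavg (fun ξ => Real.log ‖a - e + ξ‖ + -Real.log b) ρ := by
    unfold cavg
    congr 1
    refine intervalIntegral.integral_congr fun θ _ => ?_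
    have h4 : a + (ρ : ℂ) * Complex.exp (θ * Complex.I) - e =
        a - e + (ρ : ℂ) * Complex.exp (θ * Complex.I) := by ring
    show Real.log (‖a + (ρ : ℂ) * Complex.exp (θ * Complex.I) - e‖ / b) = _
    rw [h4, Real.log_div (hne θ) hb.ne']
    rfl
  have h5 : Continuous fun θ : ℝ =>
      Real.log ‖a - e + (ρ : ℂ) * Complex.exp (θ * Complex.I)‖ :=
    Continuous.log (by fun_prop) hne
  rw [h3, cavg_add (F := fun ξ => Real.log ‖a - e + ξ‖) (G := fun _ => -Real.log b) h5
    continuous_const, KRFX.Loc.cavg_log_norm hρ h.le, cavg_const', Real.log_div h0.ne' hb.ne']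
  ring

/-- The maximum principle on an annulus for a continuous function which is subharmonic outside of a
finite set. -/
theorem max_annulus {w : ℂ → ℝ} {r R : ℝ} (hr : 0 < r) (hrR : r ≤ R)
    (hw : ContinuousOn w {ζ | r ≤ ‖ζ‖ ∧ ‖ζ‖ ≤ R})
    {S : Set ℂ} (hS : (S ∩ Metric.closedBall 0 R).Finite)
    (hs : ∀ ζ₀, r < ‖ζ₀‖ → ‖ζ₀‖ < R → ζ₀ ∉ S → ∀ᶠ s in 𝓝[>] (0 : ℝ),
      w ζ₀ ≤ cavg (fun ζ => w (ζ₀ + ζ)) s)
    (hA : ∀ ζ, ‖ζ‖ = r → w ζ ≤ 0) (hB : ∀ ζ, ‖ζ‖ = R → w ζ ≤ 0) {ζ : ℂ} (h1 : r ≤ ‖ζ‖)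
    (h2 : ‖ζ‖ ≤ R) : w ζ ≤ 0 := by
  classical
  have hR : 0 < R := hr.trans_le hrR
  have hAcl : IsClosed {ζ : ℂ | r ≤ ‖ζ‖ ∧ ‖ζ‖ ≤ R} :=
    (isClosed_le continuous_const continuous_norm).inter
      (isClosed_le continuous_norm continuous_const)
  have hAc : IsCompact {ζ : ℂ | r ≤ ‖ζ‖ ∧ ‖ζ‖ ≤ R} :=
    (isCompact_closedBall (0 : ℂ) R).of_isClosed_subset hAcl fun a ha =>
      mem_closedBall_zero_iff.2 ha.2
  obtain ⟨M₀, hM₀⟩ := hAc.bddAbove_image hw
  have hM : ∀ a : ℂ, r ≤ ‖a‖ → ‖a‖ ≤ R → w a ≤ max M₀ 0 := fun a ha ha' =>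
    (hM₀ (mem_image_of_mem _ (show a ∈ {ζ : ℂ | r ≤ ‖ζ‖ ∧ ‖ζ‖ ≤ R} from ⟨ha, ha'⟩))).trans
      (le_max_left _ _)
  set M := max M₀ 0 with hMdef
  have hM0 : 0 ≤ M := le_max_right _ _
  set T := hS.toFinset with hT
  have hmemT : ∀ e, e ∈ T ↔ e ∈ S ∧ ‖e‖ ≤ R := fun e => by
    rw [hT, Set.Finite.mem_toFinset, Set.mem_inter_iff, mem_closedBall_zero_iff]
  -- the barrier
  set Lg : ℂ → ℝ := fun a => ∑ e ∈ T, Real.log (‖a - e‖ / (2 * R)) with hLg
  have h2R : 0 < 2 * R := by linarith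
  have hterm : ∀ a : ℂ, ‖a‖ ≤ R → ∀ e ∈ T, Real.log (‖a - e‖ / (2 * R)) ≤ 0 := fun a ha e he => by
    refine Real.log_nonpos (by positivity) ?_
    rw [div_le_one h2R]
    calc ‖a - e‖ ≤ ‖a‖ + ‖e‖ := norm_sub_le _ _
      _ ≤ 2 * R := by linarith [((hmemT e).1 he).2]
  have hLg0 : ∀ a : ℂ, ‖a‖ ≤ R → Lg a ≤ 0 := fun a ha => Finset.sum_nonpos (hterm a ha)
  -- points outside of the exceptional set
  have key : ∀ ζ : ℂ, r ≤ ‖ζ‖ → ‖ζ‖ ≤ R → ζ ∉ S → ∀ ε > (0 : ℝ), w ζ + ε * Lg ζ ≤ 0 := by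
    intro ζ h1 h2 hζS ε hε
    obtain ⟨η₀, hη₀, hη₀'⟩ : ∃ η₀ > (0 : ℝ), ∀ e ∈ T, η₀ ≤ ‖ζ - e‖ := by
      have hfin : ∀ T' : Finset ℂ, (∀ e ∈ T', ζ ≠ e) → ∃ η₀ > (0 : ℝ), ∀ e ∈ T', η₀ ≤ ‖ζ - e‖ := by
        intro T'
        induction T' using Finset.induction with
        | empty => exact fun _ => ⟨1, one_pos, by simp⟩
        | insert a T' ha ih =>
          intro h
          obtain ⟨η, hη, hη'⟩ := ih fun e he => h e (Finset.mem_insert_of_mem he)
          refine ⟨min η ‖ζ - a‖, lt_min hη (norm_pos_iff.2 (sub_ne_zero.2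
            (h a (Finset.mem_insert_self _ _)))), fun e he => ?_⟩
          rcases Finset.mem_insert.1 he with rfl | he
          · exact min_le_right _ _
          · exact (min_le_left _ _).trans (hη' e he)
      exact hfin T fun e he h => hζS (h ▸ ((hmemT e).1 he).1)
    set η : ℝ := min η₀ (2 * R * Real.exp (-(M / ε))) with hη
    have hηpos : 0 < η := lt_min hη₀ (by positivity)
    set K : Set ℂ := {a | (r ≤ ‖a‖ ∧ ‖a‖ ≤ R) ∧ ∀ e ∈ T, η / 2 ≤ ‖a - e‖} with hK
    have hKcl : IsClosed K := by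
      have h3 : K = ({a | r ≤ ‖a‖} ∩ {a | ‖a‖ ≤ R}) ∩ ⋂ e ∈ T, {a | η / 2 ≤ ‖a - e‖} := by
        ext a
        simp [hK]
      rw [h3]
      refine ((isClosed_le continuous_const continuous_norm).inter
        (isClosed_le continuous_norm continuous_const)).inter ?_
      exact isClosed_biInter fun e _ => isClosed_le continuous_const (by fun_prop)
    have hKc : IsCompact K := (isCompact_closedBall (0 : ℂ) R).of_isClosed_subset hKcl fun a ha =>
      mem_closedBall_zero_iff.2 ha.1.2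
    have hpos : ∀ a ∈ K, ∀ e ∈ T, 0 < ‖a - e‖ := fun a ha e he =>
      (half_pos hηpos).trans_le (ha.2 e he)
    have hDc : ContinuousOn (fun a => w a + ε * Lg a) K := by
      refine (hw.mono fun a ha => ha.1).add (continuousOn_const.mul ?_)
      refine continuousOn_finsetSum _ fun e he => ?_
      refine ContinuousOn.log (by fun_prop) fun a ha => ?_
      exact (div_pos (hpos a ha e he) h2R).ne'
    refine KRFX.Loc.max_le_compact hKc hDc (c := 0) ?_ ζ ⟨⟨h1, h2⟩, fun e he => ?_⟩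
    · intro a ha
      by_cases hnear : ∃ e ∈ T, ‖a - e‖ < η
      · obtain ⟨e, he, hae⟩ := hnear
        left
        have h4 : Lg a ≤ Real.log (‖a - e‖ / (2 * R)) := by
          rw [hLg]
          show ∑ e ∈ T, Real.log (‖a - e‖ / (2 * R)) ≤ _
          rw [← Finset.add_sum_erase T _ he]
          have := Finset.sum_nonpos (s := T.erase e)
            (f := fun e => Real.log (‖a - e‖ / (2 * R)))
            fun e' he' => hterm a ha.1.2 e' (Finset.mem_of_mem_erase he')
          linarith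
        have h5 : Real.log (‖a - e‖ / (2 * R)) ≤ -(M / ε) := by
          rw [Real.log_le_iff_le_exp (div_pos (hpos a ha e he) h2R), div_le_iff₀ h2R]
          calc ‖a - e‖ ≤ η := hae.le
            _ ≤ 2 * R * Real.exp (-(M / ε)) := min_le_right _ _
            _ = _ := by ring
        have h6 : ε * Lg a ≤ -M := by
          calc ε * Lg a ≤ ε * (-(M / ε)) := mul_le_mul_of_nonneg_left (h4.trans h5) hε.le
            _ = -M := by field_simp
        have h7 := hM a ha.1.1 ha.1.2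
        show w a + ε * Lg a ≤ 0
        linarith
      · push Not at hnear
        by_cases hra : ‖a‖ = r
        · left
          show w a + ε * Lg a ≤ 0
          nlinarith [hA a hra, hLg0 a ha.1.2]
        by_cases hRa : ‖a‖ = R
        · left
          show w a + ε * Lg a ≤ 0
          nlinarith [hB a hRa, hLg0 a ha.1.2]
        right
        have h3 : r < ‖a‖ := lt_of_le_of_ne ha.1.1 (Ne.symm hra)
        have h4 : ‖a‖ < R := lt_of_le_of_ne ha.1.2 hRa
        have haS : a ∉ S := fun h => by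
          have h5 := hnear a ((hmemT a).2 ⟨h, h4.le⟩)
          rw [sub_self, norm_zero] at h5
          linarith
        have hev : ∀ᶠ s in 𝓝[>] (0 : ℝ), s < min (min (‖a‖ - r) (R - ‖a‖)) (η / 2) :=
          (eventually_lt_nhds (lt_min (lt_min (by linarith) (by linarith))
            (half_pos hηpos))).filter_mono nhdsWithin_le_nhds
        obtain ⟨s, ⟨hs1, hs2⟩, hs3⟩ := ((hs a h3 h4 haS).and hev |>.and self_mem_nhdsWithin).exists
        have hs3' : 0 < s := hs3
        have hs4 : s < ‖a‖ - r := hs2.trans_le ((min_le_left _ _).trans (min_le_left _ _))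
        have hs5 : s < R - ‖a‖ := hs2.trans_le ((min_le_left _ _).trans (min_le_right _ _))
        have hs6 : s < η / 2 := hs2.trans_le (min_le_right _ _)
        have hin : ∀ θ : ℝ, a + (s : ℂ) * Complex.exp (θ * Complex.I) ∈ K := by
          intro θ
          have h5 := norm_circle hs3'.le θ
          refine ⟨⟨?_, ?_⟩, fun e he => ?_⟩
          · have h6 := norm_sub_norm_le a (-((s : ℂ) * Complex.exp (θ * Complex.I)))
            rw [norm_neg, sub_neg_eq_add, h5] at h6
            linarith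
          · have h6 := norm_add_le a ((s : ℂ) * Complex.exp (θ * Complex.I))
            rw [h5] at h6
            linarith
          · have h6 := norm_sub_norm_le (a - e) (-((s : ℂ) * Complex.exp (θ * Complex.I)))
            rw [norm_neg, sub_neg_eq_add, h5] at h6
            have h7 := hnear e he
            have h8 : a + (s : ℂ) * Complex.exp (θ * Complex.I) - e =
              a - e + (s : ℂ) * Complex.exp (θ * Complex.I) := by ring
            rw [h8]
            linarith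
        refine ⟨s, hs3', hin, ?_⟩
        have hcw : Continuous fun θ : ℝ => w (a + (s : ℂ) * Complex.exp (θ * Complex.I)) :=
          hw.comp_continuous (by fun_prop) fun θ => (hin θ).1
        have hce : ∀ e ∈ T, Continuous fun θ : ℝ =>
            Real.log (‖a + (s : ℂ) * Complex.exp (θ * Complex.I) - e‖ / (2 * R)) := fun e he =>
          Continuous.log (by fun_prop) fun θ => (div_pos (hpos _ (hin θ) e he) h2R).ne'
        have hcL : Continuous fun θ : ℝ =>
            ε * Lg (a + (s : ℂ) * Complex.exp (θ * Complex.I)) :=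
          continuous_const.mul (continuous_finsetSum _ hce)
        rw [cavg_add (F := fun ξ => w (a + ξ)) (G := fun ξ => ε * Lg (a + ξ)) hcw hcL,
          cavg_mul_left]
        have h9 : cavg (fun ξ => Lg (a + ξ)) s = Lg a := by
          rw [hLg]
          rw [cavg_sum T (F := fun e ξ => Real.log (‖a + ξ - e‖ / (2 * R))) hce]
          refine Finset.sum_congr rfl fun e he => ?_
          exact cavg_log_div hs3' (by linarith [hnear e he]) h2R
        rw [h9]
        linarith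
    · exact (half_le_self hηpos.le).trans ((min_le_left _ _).trans (hη₀' e he))
  have key2 : ∀ ζ : ℂ, r ≤ ‖ζ‖ → ‖ζ‖ ≤ R → ζ ∉ S → w ζ ≤ 0 := by
    intro ζ h1 h2 hζS
    have h3 := hLg0 ζ h2
    by_contra h4
    push Not at h4
    have h5 := key ζ h1 h2 hζS (w ζ / (2 * (1 - Lg ζ))) (by apply div_pos h4; linarith)
    have h6 : w ζ / (2 * (1 - Lg ζ)) * Lg ζ ≥ -(w ζ / 2) := by
      rw [ge_iff_le, neg_le_iff_add_nonneg]
      have h7 : w ζ / (2 * (1 - Lg ζ)) * Lg ζ + w ζ / 2 = w ζ / (2 * (1 - Lg ζ)) := by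
        have : (1 - Lg ζ) ≠ 0 := by linarith
        field_simp
        ring
      rw [h7]
      apply div_nonneg h4.le
      linarith
    linarith
  by_cases hζS : ζ ∈ S
  · by_contra h4
    push Not at h4
    by_cases hra : ‖ζ‖ = r
    · exact absurd (hA ζ hra) (not_le.2 h4)
    by_cases hRa : ‖ζ‖ = R
    · exact absurd (hB ζ hRa) (not_le.2 h4)
    have h3 : r < ‖ζ‖ := lt_of_le_of_ne h1 (Ne.symm hra)
    have h5 : ‖ζ‖ < R := lt_of_le_of_ne h2 hRa
    have hU : {a : ℂ | r < ‖a‖ ∧ ‖a‖ < R ∧ 0 < w a} ∈ 𝓝 ζ := by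
      have ho : IsOpen {a : ℂ | r < ‖a‖ ∧ ‖a‖ < R} :=
        (isOpen_lt continuous_const continuous_norm).inter
          (isOpen_lt continuous_norm continuous_const)
      have hsubs : {a : ℂ | r < ‖a‖ ∧ ‖a‖ < R} ⊆ {ζ : ℂ | r ≤ ‖ζ‖ ∧ ‖ζ‖ ≤ R} := fun a ha =>
        ⟨ha.1.le, ha.2.le⟩
      have h6 := (hw.mono hsubs).isOpen_inter_preimage ho (isOpen_Ioi (a := (0 : ℝ)))
      exact Filter.mem_of_superset (h6.mem_nhds ⟨⟨h3, h5⟩, h4⟩) fun a ha => ⟨ha.1.1, ha.1.2, ha.2⟩
    have hinf : {a : ℂ | r < ‖a‖ ∧ ‖a‖ < R ∧ 0 < w a}.Infinite := infinite_of_mem_nhds ζ hU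
    refine hinf (hS.subset fun a ha => ⟨?_, mem_closedBall_zero_iff.2 ha.2.1.le⟩)
    by_contra haS
    exact absurd (key2 a ha.1.le ha.2.1.le haS) (not_le.2 ha.2.2)
  · exact key2 ζ h1 h2 hζS

/-- three circles, with an exceptional set -/
theorem three_circles_off {g : ℂ → ℝ} {r R A B : ℝ} (hr : 0 < r) (hrR : r < R)
    (hg : Continuous g) {S : Set ℂ} (hS : (S ∩ Metric.closedBall 0 R).Finite)
    (hs : ∀ ζ₀ ∉ S, ∀ᶠ s in 𝓝[>] (0 : ℝ), g ζ₀ ≤ cavg (fun ζ => g (ζ₀ + ζ)) s)
    (hA : ∀ ζ, ‖ζ‖ = r → g ζ ≤ A) (hB : ∀ ζ, ‖ζ‖ = R → g ζ ≤ B) {ζ : ℂ} (h1 : r ≤ ‖ζ‖)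
    (h2 : ‖ζ‖ ≤ R) :
    g ζ ≤ A + (B - A) * (Real.log (‖ζ‖ / r) / Real.log (R / r)) := by
  have hR : 0 < R := hr.trans hrR
  have hl : 0 < Real.log (R / r) := Real.log_pos (by rw [one_lt_div hr]; exact hrR)
  set κ := (B - A) / Real.log (R / r) with hκ
  have hlogc : ContinuousOn (fun ζ : ℂ => Real.log (‖ζ‖ / r)) {ζ | r ≤ ‖ζ‖ ∧ ‖ζ‖ ≤ R} := by
    refine ContinuousOn.log (by fun_prop) fun a ha => ?_
    exact (div_pos (hr.trans_le ha.1) hr).ne'
  have key := max_annulus (w := fun ζ => g ζ + (-κ) * Real.log (‖ζ‖ / r) + (-A)) hr hrR.le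
    ((hg.continuousOn.add (continuousOn_const.mul hlogc)).add continuousOn_const) hS
    (fun ζ₀ hr0 hR0 hζS => ?_) (fun ζ hζ => ?_) (fun ζ hζ => ?_) h1 h2
  · have e : (B - A) * (Real.log (‖ζ‖ / r) / Real.log (R / r)) =
        κ * Real.log (‖ζ‖ / r) := by rw [hκ]; ring
    rw [e]
    have : g ζ + (-κ) * Real.log (‖ζ‖ / r) + (-A) ≤ 0 := key
    linarith
  · have hev : ∀ᶠ s in 𝓝[>] (0 : ℝ), s < ‖ζ₀‖ - r :=
      (eventually_lt_nhds (by linarith)).filter_mono nhdsWithin_le_nhds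
    filter_upwards [hs ζ₀ hζS, hev, self_mem_nhdsWithin] with s hs1 hs2 hs3
    have hs3' : 0 < s := hs3
    have hζ0 : s < ‖ζ₀ - 0‖ := by rw [sub_zero]; linarith
    have hne : ∀ θ : ℝ, ‖ζ₀ + (s : ℂ) * Complex.exp (θ * Complex.I)‖ / r ≠ 0 := fun θ => by
      have h6 := norm_sub_norm_le ζ₀ (-((s : ℂ) * Complex.exp (θ * Complex.I)))
      rw [norm_neg, sub_neg_eq_add, norm_circle hs3'.le] at h6
      exact (div_pos (by linarith) hr).ne'
    have hlc : Continuous fun θ : ℝ =>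
        (-κ) * Real.log (‖ζ₀ + (s : ℂ) * Complex.exp (θ * Complex.I)‖ / r) :=
      continuous_const.mul (Continuous.log (by fun_prop) hne)
    have hgc : Continuous fun θ : ℝ => g (ζ₀ + (s : ℂ) * Complex.exp (θ * Complex.I)) := by
      fun_prop
    have h7 := cavg_log_div (a := ζ₀) (e := 0) (b := r) hs3' hζ0 hr
    simp only [sub_zero] at h7
    rw [cavg_add (F := fun ξ => g (ζ₀ + ξ) + (-κ) * Real.log (‖ζ₀ + ξ‖ / r)) (G := fun _ => -A)
      (hgc.add hlc) continuous_const, cavg_add (F := fun ξ => g (ζ₀ + ξ))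
      (G := fun ξ => (-κ) * Real.log (‖ζ₀ + ξ‖ / r)) hgc hlc, cavg_const', cavg_mul_left, h7]
    linarith
  · show g ζ + (-κ) * Real.log (‖ζ‖ / r) + (-A) ≤ 0
    rw [hζ, div_self hr.ne', Real.log_one]
    linarith [hA ζ hζ]
  · show g ζ + (-κ) * Real.log (‖ζ‖ / r) + (-A) ≤ 0
    rw [hζ]
    have : κ * Real.log (R / r) = B - A := by rw [hκ]; field_simp
    have e := hB ζ hζ
    linarith

/-- **Growth**: helper86's lemma with an exceptional set. -/
theorem growth_off {U : ℂ → ℝ} {A S : ℝ} (hU : Continuous U) (hA : 0 ≤ A) (hS : ∀ s, U s ≤ S)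
    {E : Set ℂ} (hE : ∀ R : ℝ, (E ∩ Metric.closedBall 0 R).Finite)
    (hsub : ∀ z ∉ E, ∀ᶠ s in 𝓝[>] (0 : ℝ), U z + A * Real.log (1 + ‖z‖ ^ 2) ≤
      cavg (fun ζ => U (z + ζ) + A * Real.log (1 + ‖z + ζ‖ ^ 2)) s)
    {a : ℂ} (ha : ‖a‖ ≤ 1) {r B : ℝ} (hr : 0 < r) (hr1 : r ≤ 1)
    (hB : ∀ s, ‖s - a‖ = r → U s ≤ B) {s : ℂ} (hs1 : r ≤ ‖s - a‖) (hs : ‖s - a‖ ≤ 2) :
    U s ≤ B + A * (4 + 2 * Real.log (1 / r)) := by
  have h5 : Real.log 5 ≤ 2 := by
    have h := Real.exp_one_gt_d9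
    have h1 : (5 : ℝ) ≤ Real.exp 2 := by
      have : Real.exp 2 = Real.exp 1 * Real.exp 1 := by rw [← Real.exp_add]; norm_num
      rw [this]
      nlinarith
    calc Real.log 5 ≤ Real.log (Real.exp 2) := Real.log_le_log (by norm_num) h1
      _ = 2 := Real.log_exp 2
  have h2 : Real.log 2 ≤ 1 := by
    have := Real.log_two_lt_d9
    linarith
  have hlr : 0 ≤ Real.log (1 / r) := Real.log_nonneg (by rw [one_le_div hr]; exact hr1)
  have hcont : Continuous fun z : ℂ => U z + A * Real.log (1 + ‖z‖ ^ 2) := by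
    refine hU.add (continuous_const.mul ?_)
    refine Continuous.log (by fun_prop) fun z => ?_
    positivity
  set ζ := s - a with hζ
  have hEa : ∀ R : ℝ, ({z : ℂ | a + z ∈ E} ∩ Metric.closedBall 0 R).Finite := fun R => by
    refine Set.Finite.of_finite_image ((hE (R + 1)).subset ?_)
      (f := fun z => a + z) (fun x _ y _ h => add_left_cancel h)
    rintro _ ⟨z, ⟨hz, hz'⟩, rfl⟩
    refine ⟨hz, mem_closedBall_zero_iff.2 ?_⟩
    have := mem_closedBall_zero_iff.1 hz'
    exact (norm_add_le _ _).trans (by linarith)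
  -- the bound with the outer radius `R`
  have hR : ∀ R : ℝ, 2 < R → U s ≤ B + 2 * A +
      ((|S - B| / Real.log R + 2 * A) * (Real.log 2 + Real.log (1 / r))) := by
    intro R hR
    have hR0 : 0 < R := by linarith
    have hlR : 0 < Real.log R := Real.log_pos (by linarith)
    have hrR : r < R := by linarith
    have hk := three_circles_off (g := fun ξ => U (a + ξ) + A * Real.log (1 + ‖a + ξ‖ ^ 2))
      (r := r) (R := R) (A := B + 2 * A) (B := S + A * (2 + 2 * Real.log R)) hr hrR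
      (hcont.comp (continuous_const.add continuous_id)) (hEa R) ?_ ?_ ?_ (ζ := ζ) hs1
      (by linarith)
    · have hlog1 : Real.log (R / r) = Real.log R + Real.log (1 / r) := by
        rw [Real.log_div hR0.ne' hr.ne', Real.log_div one_ne_zero hr.ne', Real.log_one]
        ring
      have hlog2 : Real.log (‖ζ‖ / r) ≤ Real.log 2 + Real.log (1 / r) := by
        rw [← Real.log_mul (by norm_num) (by positivity)]
        refine Real.log_le_log (div_pos (hr.trans_le hs1) hr) ?_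
        rw [mul_one_div]
        gcongr
      have hlog3 : 0 ≤ Real.log (‖ζ‖ / r) := Real.log_nonneg (by rw [one_le_div hr]; exact hs1)
      have hlog4 : 0 < Real.log (R / r) := by rw [hlog1]; linarith
      have hsa : a + ζ = s := by rw [hζ]; ring
      rw [hsa] at hk
      have h0 : 0 ≤ A * Real.log (1 + ‖s‖ ^ 2) := by
        refine mul_nonneg hA (Real.log_nonneg ?_)
        nlinarith [sq_nonneg ‖s‖]
      have h1 : (S + A * (2 + 2 * Real.log R) - (B + 2 * A)) *
          (Real.log (‖ζ‖ / r) / Real.log (R / r)) ≤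
          (|S - B| / Real.log R + 2 * A) * (Real.log 2 + Real.log (1 / r)) := by
        have e1 : (S + A * (2 + 2 * Real.log R) - (B + 2 * A)) *
            (Real.log (‖ζ‖ / r) / Real.log (R / r)) =
            ((S - B + 2 * A * Real.log R) / Real.log (R / r)) * Real.log (‖ζ‖ / r) := by ring
        have e2 : (S - B + 2 * A * Real.log R) / Real.log (R / r) ≤
            |S - B| / Real.log R + 2 * A := by
          have e3 : (S - B + 2 * A * Real.log R) / Real.log (R / r) ≤
              (|S - B| + 2 * A * Real.log R) / Real.log R := by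
            refine (div_le_div_of_nonneg_right ?_ hlog4.le).trans
              (div_le_div_of_nonneg_left (by positivity) hlR (by rw [hlog1]; linarith))
            linarith [le_abs_self (S - B)]
          have e4 : (|S - B| + 2 * A * Real.log R) / Real.log R =
              |S - B| / Real.log R + 2 * A := by
            field_simp
          linarith
        rw [e1]
        calc _ ≤ (|S - B| / Real.log R + 2 * A) * Real.log (‖ζ‖ / r) :=
              mul_le_mul_of_nonneg_right e2 hlog3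
          _ ≤ _ := mul_le_mul_of_nonneg_left hlog2 (by positivity)
      linarith
    · intro z hz
      refine (hsub (a + z) hz).mono fun t ht => ?_
      have e : (fun ξ => U (a + z + ξ) + A * Real.log (1 + ‖a + z + ξ‖ ^ 2)) =
          fun ξ => U (a + (z + ξ)) + A * Real.log (1 + ‖a + (z + ξ)‖ ^ 2) := by
        funext ξ
        rw [add_assoc]
      rw [← e]
      exact ht
    · intro z hz
      have h1 : U (a + z) ≤ B := hB _ (by rw [add_sub_cancel_left]; exact hz)
      have h3 : ‖a + z‖ ≤ 2 := (norm_add_le _ _).trans (by rw [hz]; linarith)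
      have h4 : Real.log (1 + ‖a + z‖ ^ 2) ≤ 2 := by
        refine (Real.log_le_log (by positivity) ?_).trans h5
        nlinarith [norm_nonneg (a + z)]
      have := mul_le_mul_of_nonneg_left h4 hA
      linarith
    · intro z hz
      have h1 : U (a + z) ≤ S := hS _
      have h3 : ‖a + z‖ ≤ 1 + R := (norm_add_le _ _).trans (by rw [hz]; linarith)
      have h4 : Real.log (1 + ‖a + z‖ ^ 2) ≤ 2 + 2 * Real.log R := by
        have e1 : 1 + ‖a + z‖ ^ 2 ≤ 5 * R ^ 2 := by
          nlinarith [norm_nonneg (a + z)]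
        have e2 : Real.log (5 * R ^ 2) = Real.log 5 + 2 * Real.log R := by
          rw [Real.log_mul (by norm_num) (by positivity), Real.log_pow]
          norm_num
        have e3 := Real.log_le_log (by positivity : 0 < 1 + ‖a + z‖ ^ 2) e1
        linarith
      have := mul_le_mul_of_nonneg_left h4 hA
      linarith
  -- the limit
  have hlim : Tendsto (fun R : ℝ => B + 2 * A +
      ((|S - B| / Real.log R + 2 * A) * (Real.log 2 + Real.log (1 / r)))) atTop
      (𝓝 (B + 2 * A + ((0 + 2 * A) * (Real.log 2 + Real.log (1 / r))))) := by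
    refine tendsto_const_nhds.add (Tendsto.mul_const _ (Tendsto.add_const _ ?_))
    exact Real.tendsto_log_atTop.const_div_atTop _
  have hfin := ge_of_tendsto hlim (eventually_atTop.2 ⟨3, fun R h => hR R (by linarith)⟩)
  have h6 : 2 * A * Real.log 2 ≤ 2 * A := by
    have := mul_le_mul_of_nonneg_left h2 (by positivity : 0 ≤ 2 * A)
    linarith
  nlinarith

end Pool.Agent.KRFHk
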