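import Mathlib

/-!
# Sums of the `k` largest values

`topk k w` is the sum of the `k` largest values of `w : Fin D → ℝ`.  If the top sums of two families
differ by at most `δ` then every value of the first is within `2 δ` of a value of the second.
-/

open Set Filter
open scoped Topology

namespace Pool.Agent.KRFHk

/-- the sum of the `k` largest values of `w` -/
noncomputable def topk {D : ℕ} (k : ℕ) (w : Fin D → ℝ) : ℝ :=
  ⨆ I : {I : Finset (Fin D) // I.card = k}, ∑ i ∈ I.1, w i

variable {D : ℕ} {k : ℕ}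

theorem sum_le_topk (w : Fin D → ℝ) {I : Finset (Fin D)} (hI : I.card = k) :
    ∑ i ∈ I, w i ≤ topk k w :=
  le_ciSup (f := fun I : {I : Finset (Fin D) // I.card = k} => ∑ i ∈ I.1, w i)
    (Set.finite_range _).bddAbove ⟨I, hI⟩

theorem nonempty_sub (hk : k ≤ D) : Nonempty {I : Finset (Fin D) // I.card = k} := by
  obtain ⟨I, _, hI⟩ := Finset.exists_subset_card_eq (s := (Finset.univ : Finset (Fin D)))
    (n := k) (by rw [Finset.card_univ, Fintype.card_fin]; exact hk)
  exact ⟨⟨I, hI⟩⟩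

theorem topk_exists (hk : k ≤ D) (w : Fin D → ℝ) :
    ∃ I : Finset (Fin D), I.card = k ∧ ∑ i ∈ I, w i = topk k w := by
  have := nonempty_sub hk
  obtain ⟨I, hI⟩ := exists_eq_ciSup_of_finite
    (f := fun I : {I : Finset (Fin D) // I.card = k} => ∑ i ∈ I.1, w i)
  exact ⟨I.1, I.2, hI⟩

theorem topk_le (hk : k ≤ D) {w : Fin D → ℝ} {c : ℝ}
    (h : ∀ I : Finset (Fin D), I.card = k → ∑ i ∈ I, w i ≤ c) : topk k w ≤ c := by
  obtain ⟨I, hI, h1⟩ := topk_exists hk w
  rw [← h1]
  exact h I hI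

/-- comparison of two families up to a permutation -/
theorem topk_le_of_perm (hk : k ≤ D) {w w' : Fin D → ℝ} {δ : ℝ} (σ : Equiv.Perm (Fin D))
    (h : ∀ i, w i ≤ w' (σ i) + δ) : topk k w ≤ topk k w' + k * δ := by
  refine topk_le hk fun I hI => ?_
  calc ∑ i ∈ I, w i ≤ ∑ i ∈ I, (w' (σ i) + δ) := Finset.sum_le_sum fun i _ => h i
    _ = ∑ i ∈ I.map σ.toEmbedding, w' i + k * δ := by
        rw [Finset.sum_add_distrib, Finset.sum_const, hI, nsmul_eq_mul, Finset.sum_map]
        rfl
    _ ≤ _ := by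
        gcongr
        exact sum_le_topk w' (by rw [Finset.card_map, hI])

theorem topk_perm (hk : k ≤ D) {w w' : Fin D → ℝ} (σ : Equiv.Perm (Fin D))
    (h : ∀ i, w i = w' (σ i)) : topk k w = topk k w' := by
  refine le_antisymm ?_ ?_
  · have := topk_le_of_perm hk (δ := 0) σ fun i => (by rw [h i, add_zero] : w i ≤ w' (σ i) + 0)
    linarith
  · have := topk_le_of_perm hk (w := w') (w' := w) (δ := 0) σ.symm fun i =>
      (by rw [h, Equiv.apply_symm_apply, add_zero] : w' i ≤ w (σ.symm i) + 0)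
    linarith

theorem abs_topk_sub_le (hk : k ≤ D) {w w' : Fin D → ℝ} {δ : ℝ} (hδ : 0 ≤ δ)
    (h : ∃ σ : Equiv.Perm (Fin D), ∀ i, |w (σ i) - w' i| ≤ δ) :
    |topk k w - topk k w'| ≤ D * δ := by
  obtain ⟨σ, h⟩ := h
  have hkD : (k : ℝ) * δ ≤ D * δ := by
    have : (k : ℝ) ≤ D := by exact_mod_cast hk
    gcongr
  rw [abs_le]
  constructor
  · have := topk_le_of_perm hk (w := w') (w' := w) (δ := δ) σ fun i => by
      have := (abs_le.1 (h i)).1
      linarith
    linarith
  · have := topk_le_of_perm hk (w := w) (w' := w') (δ := δ) σ.symm fun i => by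
      have := (abs_le.1 (h (σ.symm i))).2
      rw [Equiv.apply_symm_apply] at this
      linarith
    linarith

theorem abs_topk_le (hk : k ≤ D) {w : Fin D → ℝ} {B : ℝ} (hB : 0 ≤ B) (h : ∀ i, |w i| ≤ B) :
    |topk k w| ≤ D * B := by
  have h0 : topk k (fun _ : Fin D => (0 : ℝ)) = 0 := by
    obtain ⟨I, _, h1⟩ := topk_exists hk (fun _ : Fin D => (0 : ℝ))
    rw [← h1, Finset.sum_const_zero]
  have := abs_topk_sub_le hk hB (w := w) (w' := fun _ => 0)
    ⟨Equiv.refl _, fun i => by simpa using h i⟩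
  rwa [h0, sub_zero] at this

/-- for an antitone family the top sum is the sum of the first `k` values -/
theorem topk_antitone (hk : k ≤ D) {w : Fin D → ℝ} (hw : Antitone w) :
    topk k w = ∑ j : Fin k, w (Fin.castLE hk j) := by
  refine le_antisymm (topk_le hk fun I hI => ?_) ?_
  · have e : ∑ i ∈ I, w i = ∑ j : Fin k, w (I.orderEmbOfFin hI j) := by
      conv_lhs => rw [← Finset.map_orderEmbOfFin_univ I hI]
      rw [Finset.sum_map]
      rfl
    rw [e]
    refine Finset.sum_le_sum fun j _ => hw ?_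
    rw [Fin.le_def, Fin.val_castLE]
    -- the j-th element of a set of numbers is at least j
    have key : ∀ m : ℕ, ∀ hm : m < k, m ≤ (I.orderEmbOfFin hI ⟨m, hm⟩ : Fin D).val := by
      intro m
      induction m with
      | zero => exact fun _ => Nat.zero_le _
      | succ m ih =>
        intro hm
        have h1 := ih (Nat.lt_of_succ_lt hm)
        have h2 : (I.orderEmbOfFin hI ⟨m, Nat.lt_of_succ_lt hm⟩ : Fin D) <
            I.orderEmbOfFin hI ⟨m + 1, hm⟩ := (I.orderEmbOfFin hI).strictMono (by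
              rw [Fin.lt_def]
              exact Nat.lt_succ_self m)
        rw [Fin.lt_def] at h2
        omega
    exact key j.1 j.2
  · have e : ∑ j : Fin k, w (Fin.castLE hk j) =
        ∑ i ∈ Finset.univ.map (Fin.castLEEmb hk), w i := by
      rw [Finset.sum_map]
      rfl
    rw [e]
    exact sum_le_topk w (by rw [Finset.card_map, Finset.card_univ, Fintype.card_fin])

theorem exists_antitone (w : Fin D → ℝ) : ∃ σ : Equiv.Perm (Fin D), Antitone (w ∘ σ) := by
  refine ⟨Tuple.sort fun i => -w i, fun i j hij => ?_⟩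
  have := Tuple.monotone_sort (fun i => -w i) hij
  simp only [Function.comp_apply] at this ⊢
  linarith

/-- **values from top sums** -/
theorem exists_near_of_topk {w w' : Fin D → ℝ} {δ : ℝ}
    (h : ∀ k ≤ D, |topk k w - topk k w'| ≤ δ) (i : Fin D) : ∃ j, |w i - w' j| ≤ 2 * δ := by
  obtain ⟨σ, hσ⟩ := exists_antitone w
  obtain ⟨σ', hσ'⟩ := exists_antitone w'
  have e1 : ∀ k ≤ D, topk k (w ∘ σ) = topk k w := fun k hk => topk_perm hk σ fun i => rfl
  have e2 : ∀ k ≤ D, topk k (w' ∘ σ') = topk k w' := fun k hk => topk_perm hk σ' fun i => rfl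
  have key : ∀ m : ℕ, ∀ hm : m < D, |w (σ ⟨m, hm⟩) - w' (σ' ⟨m, hm⟩)| ≤ 2 * δ := by
    intro m hm
    have f1 : topk (m + 1) (w ∘ σ) - topk m (w ∘ σ) = w (σ ⟨m, hm⟩) := by
      rw [topk_antitone hm hσ, topk_antitone hm.le hσ, Fin.sum_univ_castSucc]
      simp only [Function.comp_apply]
      have : ∀ x : Fin m, Fin.castLE hm (Fin.castSucc x) = Fin.castLE hm.le x := fun x => by
        ext
        simp
      simp only [this]
      have h2 : Fin.castLE hm (Fin.last m) = ⟨m, hm⟩ := by
        ext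
        simp
      rw [h2]
      ring
    have f2 : topk (m + 1) (w' ∘ σ') - topk m (w' ∘ σ') = w' (σ' ⟨m, hm⟩) := by
      rw [topk_antitone hm hσ', topk_antitone hm.le hσ', Fin.sum_univ_castSucc]
      simp only [Function.comp_apply]
      have : ∀ x : Fin m, Fin.castLE hm (Fin.castSucc x) = Fin.castLE hm.le x := fun x => by
        ext
        simp
      simp only [this]
      have h2 : Fin.castLE hm (Fin.last m) = ⟨m, hm⟩ := by
        ext
        simp
      rw [h2]
      ring
    rw [e1 _ hm, e1 _ hm.le] at f1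
    rw [e2 _ hm, e2 _ hm.le] at f2
    have g1 := abs_le.1 (h (m + 1) hm)
    have g2 := abs_le.1 (h m hm.le)
    rw [← f1, ← f2, abs_le]
    constructor <;> linarith [g1.1, g1.2, g2.1, g2.2]
  obtain ⟨m, rfl⟩ := σ.surjective i
  exact ⟨σ' m, key m.1 m.2⟩

/-- the top sum of an unordered continuous family is continuous -/
theorem continuous_topk {X : Type*} [TopologicalSpace X] (hk : k ≤ D) {a : X → Fin D → ℝ}
    (h : ∀ x₀, ∀ ε > (0 : ℝ), ∀ᶠ x in 𝓝 x₀, ∃ σ : Equiv.Perm (Fin D), ∀ i,
      |a x (σ i) - a x₀ i| ≤ ε) : Continuous fun x => topk k (a x) := by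
  rw [continuous_iff_continuousAt]
  intro x₀
  rw [ContinuousAt, Metric.tendsto_nhds]
  intro ε hε
  have hD : (0 : ℝ) < D + 1 := by positivity
  filter_upwards [h x₀ (ε / (D + 1)) (by positivity)] with x hx
  rw [Real.dist_eq]
  refine (abs_topk_sub_le hk (by positivity) hx).trans_lt ?_
  rw [mul_div_assoc', div_lt_iff₀ hD]
  nlinarith

/-- a connected set of values covered by `D` intervals -/
theorem osc_of_cover {X : Type*} [TopologicalSpace X] {F : Set X} (hF : IsPreconnected F)
    {v : X → ℝ} (hv : ContinuousOn v F) {P : Finset X} {D : ℕ} (hD : P.card ≤ D) {δ : ℝ}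
    (hδ : 0 ≤ δ) (h : ∀ x ∈ F, ∃ p ∈ P, |v x - v p| ≤ δ) {x y : X} (hx : x ∈ F) (hy : y ∈ F) :
    v y - v x ≤ 2 * D * δ := by
  by_cases hxy : v y ≤ v x
  · have : 0 ≤ 2 * (D : ℝ) * δ := by positivity
    linarith
  push Not at hxy
  have h1 : Icc (v x) (v y) ⊆ v '' F :=
    (hF.image v hv).ordConnected.out (mem_image_of_mem v hx) (mem_image_of_mem v hy)
  have h2 : Icc (v x) (v y) ⊆ ⋃ p ∈ P, Icc (v p - δ) (v p + δ) := by
    intro t ht
    obtain ⟨z, hz, rfl⟩ := h1 ht
    obtain ⟨p, hp, hzp⟩ := h z hz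
    rw [mem_iUnion₂]
    refine ⟨p, hp, ?_⟩
    have := abs_le.1 hzp
    exact ⟨by linarith, by linarith⟩
  have h3 : MeasureTheory.volume (Icc (v x) (v y)) ≤
      ∑ p ∈ P, MeasureTheory.volume (Icc (v p - δ) (v p + δ)) :=
    (MeasureTheory.measure_mono h2).trans (MeasureTheory.measure_biUnion_finset_le _ _)
  rw [Real.volume_Icc] at h3
  have h4 : ∑ p ∈ P, MeasureTheory.volume (Icc (v p - δ) (v p + δ)) =
      ENNReal.ofReal (P.card * (2 * δ)) := by
    have : ∀ p ∈ P, MeasureTheory.volume (Icc (v p - δ) (v p + δ)) = ENNReal.ofReal (2 * δ) :=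
      fun p _ => by
        rw [Real.volume_Icc]
        congr 1
        ring
    rw [Finset.sum_congr rfl this, Finset.sum_const, nsmul_eq_mul,
      ENNReal.ofReal_mul (p := (P.card : ℝ)) (by positivity), ENNReal.ofReal_natCast]
  rw [h4, ENNReal.ofReal_le_ofReal_iff (by positivity)] at h3
  have h5 : (P.card : ℝ) * (2 * δ) ≤ D * (2 * δ) := by
    have : (P.card : ℝ) ≤ D := by exact_mod_cast hD
    gcongr
  linarith

end Pool.Agent.KRFHk
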