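import Pool.Agent.Work.MP_a2bf38_gt.Hk.Osc
import Pool.Agent.Work.MP_a2bf38_gt.Hk.Top

/-!
# Unordered families of subharmonic functions on `ℂ`

`a : ℂ → Fin D → ℝ` is bounded, continuous as an unordered family, and off a discrete set locally
given by `D` continuous functions which are subharmonic up to `A log (1 + |s|²)`.  If it is almost
constant on the discs of radius `r` around two points of the unit disc then the values at one point are
near the values at the other, up to `2 D (δ + A (4 + 2 log (1 / r)))`.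
-/

open scoped ContDiff ENNReal ComplexOrder Topology
open Set MeasureTheory Filter Pool.Agent.ToricKRF Pool.Agent.ToricKRF.G Pool.Agent.KRFS
  Pool.Agent.KRFF Pool.Agent.KRFG

namespace Pool.Agent.KRFHk

/-- an unordered family of functions on `ℂ` which is subharmonic up to `A log (1 + |s|²)` off `E` -/
structure Sheets (D : ℕ) (A : ℝ) (E : Set ℂ) (a : ℂ → Fin D → ℝ) : Prop where
  cont : ∀ s₀, ∀ ε > (0 : ℝ), ∀ᶠ s in 𝓝 s₀, ∃ σ : Equiv.Perm (Fin D), ∀ i,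
    |a s (σ i) - a s₀ i| ≤ ε
  loc : ∀ z ∉ E, ∃ b : Fin D → ℂ → ℝ,
    (∀ᶠ s in 𝓝 z, ∃ σ : Equiv.Perm (Fin D), ∀ i, b i s = a s (σ i)) ∧
    (∀ i, ∀ᶠ s in 𝓝 z, ContinuousAt (b i) s) ∧
    ∀ i, ∀ᶠ s in 𝓝[>] (0 : ℝ), b i z + A * Real.log (1 + ‖z‖ ^ 2) ≤
      cavg (fun ζ => b i (z + ζ) + A * Real.log (1 + ‖z + ζ‖ ^ 2)) s

theorem Sheets.continuous {D : ℕ} {A : ℝ} {E : Set ℂ} {a : ℂ → Fin D → ℝ} (h : Sheets D A E a)
    {k : ℕ} (hk : k ≤ D) : Continuous fun s => topk k (a s) :=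
  continuous_topk hk h.cont

theorem Sheets.sub {D : ℕ} {A : ℝ} {E : Set ℂ} {a : ℂ → Fin D → ℝ} (h : Sheets D A E a)
    {k : ℕ} (hk : k ≤ D) {z : ℂ} (hz : z ∉ E) :
    ∀ᶠ s in 𝓝[>] (0 : ℝ), topk k (a z) + (k * A) * Real.log (1 + ‖z‖ ^ 2) ≤
      cavg (fun ζ => topk k (a (z + ζ)) + (k * A) * Real.log (1 + ‖z + ζ‖ ^ 2)) s := by
  obtain ⟨b, hb1, hb2, hb3⟩ := h.loc z hz
  obtain ⟨I, hI, hI2⟩ := topk_exists hk fun i => b i z
  have hbz : topk k (a z) = topk k fun i => b i z := by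
    obtain ⟨σ, hσ⟩ := hb1.self_of_nhds
    exact (topk_perm hk σ hσ).symm
  have hc : ∀ᶠ s in 𝓝 z, ∀ i, ContinuousAt (b i) s := eventually_all.2 hb2
  obtain ⟨r, hr, hball⟩ := Metric.eventually_nhds_iff.1 (hb1.and hc)
  have hev : ∀ᶠ s in 𝓝[>] (0 : ℝ), s < r :=
    (eventually_lt_nhds hr).filter_mono nhdsWithin_le_nhds
  filter_upwards [eventually_all.2 hb3, hev, self_mem_nhdsWithin] with s hs1 hs2 hs3
  have hs0 : 0 < s := hs3
  have hin : ∀ θ : ℝ, dist (z + (s : ℂ) * Complex.exp (θ * Complex.I)) z < r := fun θ => by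
    rw [dist_eq_norm, add_sub_cancel_left, norm_circle hs0.le]
    exact hs2
  have hlog : Continuous fun θ : ℝ =>
      Real.log (1 + ‖z + (s : ℂ) * Complex.exp (θ * Complex.I)‖ ^ 2) :=
    Continuous.log (by fun_prop) fun θ => by positivity
  have hbc : ∀ i, Continuous fun θ : ℝ => b i (z + (s : ℂ) * Complex.exp (θ * Complex.I)) :=
    fun i => by
      rw [continuous_iff_continuousAt]
      intro θ
      exact ContinuousAt.comp (f := fun θ : ℝ => z + (s : ℂ) * Complex.exp (θ * Complex.I))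
        ((hball (hin θ)).2 i) (by fun_prop)
  have hbcl : ∀ i, Continuous fun θ : ℝ => b i (z + (s : ℂ) * Complex.exp (θ * Complex.I)) +
      A * Real.log (1 + ‖z + (s : ℂ) * Complex.exp (θ * Complex.I)‖ ^ 2) := fun i =>
    (hbc i).add (continuous_const.mul hlog)
  have htc : Continuous fun θ : ℝ => topk k (a (z + (s : ℂ) * Complex.exp (θ * Complex.I))) +
      (k * A) * Real.log (1 + ‖z + (s : ℂ) * Complex.exp (θ * Complex.I)‖ ^ 2) :=
    ((h.continuous hk).comp (by fun_prop : Continuous fun θ : ℝ =>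
      z + (s : ℂ) * Complex.exp (θ * Complex.I))).add (continuous_const.mul hlog)
  calc topk k (a z) + (k * A) * Real.log (1 + ‖z‖ ^ 2)
      = ∑ i ∈ I, (b i z + A * Real.log (1 + ‖z‖ ^ 2)) := by
        rw [Finset.sum_add_distrib, Finset.sum_const, hI, nsmul_eq_mul, hI2, hbz]
        ring
    _ ≤ ∑ i ∈ I, cavg (fun ζ => b i (z + ζ) + A * Real.log (1 + ‖z + ζ‖ ^ 2)) s :=
        Finset.sum_le_sum fun i _ => hs1 i
    _ = cavg (fun ζ => ∑ i ∈ I, (b i (z + ζ) + A * Real.log (1 + ‖z + ζ‖ ^ 2))) s :=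
        (cavg_sum I fun i _ => hbcl i).symm
    _ ≤ _ := by
        refine cavg_mono' (continuous_finsetSum _ fun i _ => hbcl i) htc fun θ => ?_
        show ∑ i ∈ I, (b i (z + (s : ℂ) * Complex.exp (θ * Complex.I)) +
          A * Real.log (1 + ‖z + (s : ℂ) * Complex.exp (θ * Complex.I)‖ ^ 2)) ≤
          topk k (a (z + (s : ℂ) * Complex.exp (θ * Complex.I))) +
          (k * A) * Real.log (1 + ‖z + (s : ℂ) * Complex.exp (θ * Complex.I)‖ ^ 2)
        obtain ⟨σ, hσ⟩ := (hball (hin θ)).1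
        have e := topk_perm hk σ hσ
        have e2 := sum_le_topk (fun i => b i (z + (s : ℂ) * Complex.exp (θ * Complex.I))) hI
        rw [Finset.sum_add_distrib, Finset.sum_const, hI, nsmul_eq_mul, ← e]
        linarith

/-- one-sided comparison of the top sums -/
theorem Sheets.topk_le {D : ℕ} {A B : ℝ} {E : Set ℂ} {a : ℂ → Fin D → ℝ} (h : Sheets D A E a)
    (hA : 0 ≤ A) (hB : ∀ s i, |a s i| ≤ B)
    (hE : ∀ R : ℝ, (E ∩ Metric.closedBall 0 R).Finite) {s₀ s₁ : ℂ} (h0 : ‖s₀‖ ≤ 1)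
    (h1 : ‖s₁‖ ≤ 1) {r δ : ℝ} (hr : 0 < r) (hr1 : r ≤ 1) (hδ : 0 ≤ δ)
    (hflat : ∀ s, ‖s - s₀‖ ≤ r → ∃ σ : Equiv.Perm (Fin D), ∀ i, |a s (σ i) - a s₀ i| ≤ δ)
    {k : ℕ} (hk : k ≤ D) :
    topk k (a s₁) ≤ topk k (a s₀) + D * (δ + A * (4 + 2 * Real.log (1 / r))) := by
  have hlr : 0 ≤ Real.log (1 / r) := Real.log_nonneg (by rw [one_le_div hr]; exact hr1)
  have hkD : (k : ℝ) ≤ D := by exact_mod_cast hk
  have hq : 0 ≤ A * (4 + 2 * Real.log (1 / r)) := by positivity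
  have hD0 : (0 : ℝ) ≤ D := by positivity
  by_cases hc : ‖s₁ - s₀‖ ≤ r
  · have := (abs_le.1 (abs_topk_sub_le hk hδ (hflat s₁ hc))).2
    nlinarith [mul_nonneg hD0 hq]
  push Not at hc
  rcases Nat.eq_zero_or_pos D with hD | hD
  · subst hD
    obtain rfl : k = 0 := Nat.le_zero.1 hk
    have := (abs_le.1 (abs_topk_sub_le hk hδ (w := a s₁) (w' := a s₀)
      ⟨Equiv.refl _, fun i => i.elim0⟩)).2
    simp at this ⊢
    linarith
  have hB0 : 0 ≤ B := (abs_nonneg _).trans (hB 0 ⟨0, hD⟩)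
  have hg := growth_off (U := fun s => topk k (a s)) (A := k * A) (S := D * B)
    (h.continuous hk) (by positivity)
    (fun s => (abs_le.1 (abs_topk_le hk hB0 (hB s))).2) hE (fun z hz => h.sub hk hz) h0 hr hr1
    (B := topk k (a s₀) + D * δ) (fun s hs => by
      have := (abs_le.1 (abs_topk_sub_le hk hδ (hflat s hs.le))).2
      linarith) hc.le (s := s₁) ((norm_sub_le _ _).trans (by linarith))
  have : (k : ℝ) * A * (4 + 2 * Real.log (1 / r)) ≤ D * (A * (4 + 2 * Real.log (1 / r))) := by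
    rw [mul_assoc]
    gcongr
  have hg' : topk k (a s₁) ≤ topk k (a s₀) + D * δ + k * A * (4 + 2 * Real.log (1 / r)) := hg
  linarith

/-- **the values at two points of a sheeted curve** -/
theorem Sheets.exists_near {D : ℕ} {A B : ℝ} {E : Set ℂ} {a : ℂ → Fin D → ℝ}
    (h : Sheets D A E a) (hA : 0 ≤ A) (hB : ∀ s i, |a s i| ≤ B)
    (hE : ∀ R : ℝ, (E ∩ Metric.closedBall 0 R).Finite) {s₀ s₁ : ℂ} (h0 : ‖s₀‖ ≤ 1)
    (h1 : ‖s₁‖ ≤ 1) {r δ : ℝ} (hr : 0 < r) (hr1 : r ≤ 1) (hδ : 0 ≤ δ)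
    (hflat₀ : ∀ s, ‖s - s₀‖ ≤ r → ∃ σ : Equiv.Perm (Fin D), ∀ i, |a s (σ i) - a s₀ i| ≤ δ)
    (hflat₁ : ∀ s, ‖s - s₁‖ ≤ r → ∃ σ : Equiv.Perm (Fin D), ∀ i, |a s (σ i) - a s₁ i| ≤ δ)
    (i : Fin D) :
    ∃ j, |a s₁ i - a s₀ j| ≤ 2 * (D * (δ + A * (4 + 2 * Real.log (1 / r)))) := by
  refine exists_near_of_topk (fun k hk => ?_) i
  have e1 := h.topk_le hA hB hE h0 h1 hr hr1 hδ hflat₀ hk
  have e2 := h.topk_le hA hB hE h1 h0 hr hr1 hδ hflat₁ hk
  rw [abs_le]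
  constructor <;> linarith

end Pool.Agent.KRFHk
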